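import Pool.Agent.W536.LM.Stm

set_option autoImplicit false

open Polynomial W536.LM

namespace Pool.Agent.W462.LM

theorem quad_coeff (F : Subfield ℂ) (a b c : ℂ) (ha : a ∈ F) (hb : b ∈ F) (hc : c ∈ F) (k : ℕ) :
    (C a * X ^ 2 + C b * X + C c : ℂ[X]).coeff k ∈ F := by
  have h : (C a * X ^ 2 + C b * X + C c : ℂ[X]).coeff k =
      if k = 2 then a else if k = 1 then b else if k = 0 then c else 0 := by
    rcases k with _ | _ | _ | k
    · simp
    · simp [coeff_X, coeff_C]
    · simp [coeff_X, coeff_C]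
    · simp [coeff_X, coeff_C, coeff_X_pow]
  rw [h]
  split_ifs
  · exact ha
  · exact hb
  · exact hc
  · exact F.zero_mem

theorem half (F : Subfield ℂ) (L m m' e : ℂ) (hF : ACl F) (hL : L ∈ F) (hm : m ∈ F)
    (hm' : m' ∈ F) (he : e ∈ F) (h1 : m ≠ 0) (h2 : m' ≠ 0) (h3 : m ≠ L) (w w' : ℂ)
    (h : E0 L m m' e w w' = 0) (hw : w ∈ F) : w' ∈ F := by
  have hpoly : ∀ a b c : ℂ, a ∈ F → b ∈ F → c ∈ F → (a ≠ 0 ∨ c ≠ 0) →
      a * w' ^ 2 + b * w' + c = 0 → w' ∈ F := by
    intro a b c ha hb hc hne h0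
    refine hF (C a * X ^ 2 + C b * X + C c) ?_ (quad_coeff F a b c ha hb hc) w' ?_
    · intro hp
      rcases hne with hne | hne
      · apply hne
        have := congrArg (fun p => Polynomial.coeff p 2) hp
        simpa [coeff_X, coeff_C] using this
      · apply hne
        have := congrArg (fun p => Polynomial.coeff p 0) hp
        simpa using this
    · simpa using h0
  have hlw : m - L * w ∈ F := F.sub_mem hm (F.mul_mem hL hw)
  have hw1 : w - 1 ∈ F := F.sub_mem hw F.one_mem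
  refine hpoly (m - L * w) (m' * w + (w - 1) * (m - L * w) - e * w) ((w - 1) * m' * w) hlw
    (F.sub_mem (F.add_mem (F.mul_mem hm' hw) (F.mul_mem hw1 hlw)) (F.mul_mem he hw))
    (F.mul_mem (F.mul_mem hw1 hm') hw) ?_ ?_
  · by_contra hcon
    push Not at hcon
    obtain ⟨c1, c2⟩ := hcon
    rcases mul_eq_zero.mp c2 with c3 | c3
    · rcases mul_eq_zero.mp c3 with c4 | c4
      · have : w = 1 := by linear_combination c4
        rw [this] at c1
        exact h3 (by linear_combination c1)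
      · exact h2 c4
    · rw [c3] at c1
      exact h1 (by linear_combination c1)
  · unfold E0 at h
    linear_combination h

theorem t_PROP : S_PROP := by
  intro F L m m' e hF hL hm hm' he hL0 h1 h2 h3 h4 v v' h
  rcases v with _ | w <;> rcases v' with _ | w'
  · exact Iff.rfl
  · have h5 : m' - L * w' = 0 := h
    have h6 : w' = m' / L := by
      field_simp
      linear_combination -h5
    have h7 : w' ∈ F := by
      rw [h6]
      exact F.div_mem hm' hL
    exact ⟨fun _ => h7, fun _ => trivial⟩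
  · have h5 : m - L * w = 0 := h
    have h6 : w = m / L := by
      field_simp
      linear_combination -h5
    have h7 : w ∈ F := by
      rw [h6]
      exact F.div_mem hm hL
    exact ⟨fun _ => trivial, fun _ => h7⟩
  · have h5 : E0 L m m' e w w' = 0 := h
    have h6 : E0 L m' m e w' w = 0 := by
      unfold E0 at h5 ⊢
      linear_combination h5
    exact ⟨fun hw => half F L m m' e hF hL hm hm' he h1 h2 h3 w w' h5 hw,
      fun hw => half F L m' m e hF hL hm' hm he h2 h1 h4 w' w h6 hw⟩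

/-- The values along the chain. -/
def wf (w0 w1 w2 w3 w4 w5 : ℂ) : ℕ → ℂ
  | 0 => w0
  | 1 => w1
  | 2 => w2
  | 3 => w3
  | 4 => w4
  | 5 => w5
  | _ => 0

theorem notIn {F : Subfield ℂ} {v : Option ℂ} (h : ¬ InF F v) : ∃ w, v = some w ∧ w ≠ 0 := by
  rcases v with _ | w
  · exact absurd trivial h
  · refine ⟨w, rfl, ?_⟩
    rintro rfl
    exact h F.zero_mem

theorem t_CHAIN : S_CHAIN := by
  intro F P w0 hND hE hw0 hw1 hLm hP
  obtain ⟨hF, hL, hm, he, ht⟩ := hE
  obtain ⟨hL0, hm0, hmL⟩ := hND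
  obtain ⟨v1, r0, v2, r1, v3, r2, v4, r3, v5, r4, r5⟩ := hP
  have R0 : Rel P.L (P.m 0) (P.m 1) (P.e 0) (some w0) v1 := r0
  have R1 : Rel P.L (P.m 1) (P.m 2) (P.e 1) v1 v2 := r1
  have R2 : Rel P.L (P.m 2) (P.m 3) (P.e 2) v2 v3 := r2
  have R3 : Rel P.L (P.m 3) (P.m 4) (P.e 3) v3 v4 := r3
  have R4 : Rel P.L (P.m 4) (P.m 5) (P.e 4) v4 v5 := r4
  have R5 : Rel P.L (P.m 5) (P.m 0) (P.e 5) v5 (some w0) := r5
  have pr : ∀ (k : ℕ), k < 5 → ∀ v v' : Option ℂ,
      Rel P.L (P.m k) (P.m (k + 1)) (P.e k) v v' → (InF F v ↔ InF F v') := fun k hk =>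
    t_PROP F P.L (P.m k) (P.m (k + 1)) (P.e k) hF hL (hm _) (hm _) (he k (by omega) (by omega))
      hL0 (hm0 _) (hm0 _) (hmL _) (hmL _)
  have I1 := pr 0 (by norm_num) _ _ R0
  have I2 := pr 1 (by norm_num) _ _ R1
  have I3 := pr 2 (by norm_num) _ _ R2
  have I4 := pr 3 (by norm_num) _ _ R3
  have I5 := pr 4 (by norm_num) _ _ R4
  have hnot : ¬ InF F (some w0) := by
    intro h0
    have h5 : InF F v5 := I5.mp (I4.mp (I3.mp (I2.mp (I1.mp h0))))
    rcases v5 with _ | z
    · have h6 : P.m 0 - P.L * w0 = 0 := R5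
      exact hLm (by linear_combination -h6)
    · have hz : z ∈ F := h5
      have h0' : w0 ∈ F := h0
      have h6 : E0 P.L (P.m 5) (P.m 0) (P.e 5) z w0 = 0 := R5
      unfold E0 at h6
      by_cases hzw : z * w0 = 0
      · have hz0 : z = 0 := (mul_eq_zero.mp hzw).resolve_right hw0
        rw [hz0] at h6
        have h7 : (w0 - 1) * (P.m 5 * w0) = 0 := by linear_combination h6
        rcases mul_eq_zero.mp h7 with h8 | h8
        · exact hw1 (by linear_combination h8)
        · exact (mul_ne_zero (hm0 5) hw0) h8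
      · apply ht
        have h7 : P.e 5 = (z + w0 - 1) * (P.m 0 * z + P.m 5 * w0 - P.L * z * w0) / (z * w0) := by
          rw [eq_div_iff hzw]
          linear_combination -h6
        rw [h7]
        exact F.div_mem (F.mul_mem (F.sub_mem (F.add_mem hz h0') F.one_mem)
          (F.sub_mem (F.add_mem (F.mul_mem (hm 0) hz) (F.mul_mem (hm 5) h0'))
            (F.mul_mem (F.mul_mem hL hz) h0'))) (F.mul_mem hz h0')
  have N1 : ¬ InF F v1 := fun h => hnot (I1.mpr h)
  have N2 : ¬ InF F v2 := fun h => N1 (I2.mpr h)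
  have N3 : ¬ InF F v3 := fun h => N2 (I3.mpr h)
  have N4 : ¬ InF F v4 := fun h => N3 (I4.mpr h)
  have N5 : ¬ InF F v5 := fun h => N4 (I5.mpr h)
  obtain ⟨w1, rfl, h1⟩ := notIn N1
  obtain ⟨w2, rfl, h2⟩ := notIn N2
  obtain ⟨w3, rfl, h3⟩ := notIn N3
  obtain ⟨w4, rfl, h4⟩ := notIn N4
  obtain ⟨w5, rfl, h5⟩ := notIn N5
  refine ⟨hnot, wf w0 w1 w2 w3 w4 w5, rfl, ?_, ?_, R5⟩
  · intro k hk
    interval_cases k
    · exact hw0
    · exact h1
    · exact h2
    · exact h3
    · exact h4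
    · exact h5
  · intro k hk
    interval_cases k
    · exact R0
    · exact R1
    · exact R2
    · exact R3
    · exact R4

end Pool.Agent.W462.LM
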